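import Pool.Agent.Helper71.BD.PAC
import Pool.Agent.Helper63.BD.PAC

/-!
# Pseudo algebraically closed fields: affine form with inequalities (Helper72, PROJECT BD)

`BD.AffPAC F` : every common zero of a set of polynomials over `F` with coordinates in a finitely
generated regular extension of `F` gives a common zero over `F`, with the same coordinates
different from `0`.
-/

set_option autoImplicit false

open Polynomial

namespace BD

universe u

/-- Every common zero of a set of polynomials over `F` in a finitely generated extension of `F`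
in which `F` is algebraically closed gives a common zero over `F`, and coordinates different from
`0` stay different from `0`. -/
def AffPAC (F : Type u) [Field F] : Prop :=
  ∀ (E : Type u) [Field E] [Algebra F E] [Algebra.EssFiniteType F E],
    (∀ a : E, IsAlgebraic F a → a ∈ (algebraMap F E).range) →
    ∀ (ι : Type) [Finite ι] (x : ι → E) (S : Set (MvPolynomial ι F)),
      (∀ f ∈ S, MvPolynomial.aeval x f = 0) →
      ∃ y : ι → F, (∀ i, x i ≠ 0 → y i ≠ 0) ∧ ∀ f ∈ S, MvPolynomial.eval y f = 0

/-- Specialisation of quotients. -/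
theorem spec_quot {R E F : Type*} [CommRing R] [Field E] [Field F] (α : R →+* E) (β : R →+* F)
    (hαβ : ∀ q, α q = 0 → β q = 0) (κ : F →+* R) (hβκ : ∀ s, β (κ s) = s) {ι : Type*} [Fintype ι]
    (p d : ι → R) (hα : ∀ i, α (d i) ≠ 0) (hβ : ∀ i, β (d i) ≠ 0) (f : MvPolynomial ι F)
    (hf : f.eval₂ (α.comp κ) (fun i => α (p i) / α (d i)) = 0) :
    MvPolynomial.eval (fun i => β (p i) / β (d i)) f = 0 := by
  classical
  set c : R := ∏ i, d i with hc
  have hαc : IsUnit (α c) := by
    rw [isUnit_iff_ne_zero, hc, map_prod]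
    exact Finset.prod_ne_zero_iff.2 fun i _ => hα i
  have hβc : IsUnit (β c) := by
    rw [isUnit_iff_ne_zero, hc, map_prod]
    exact Finset.prod_ne_zero_iff.2 fun i _ => hβ i
  let A : Localization.Away c →+* E := IsLocalization.Away.lift c hαc
  let B : Localization.Away c →+* F := IsLocalization.Away.lift c hβc
  have hA : ∀ z, A (algebraMap R (Localization.Away c) z) = α z :=
    fun z => IsLocalization.Away.lift_eq c hαc z
  have hB : ∀ z, B (algebraMap R (Localization.Away c) z) = β z :=
    fun z => IsLocalization.Away.lift_eq c hβc z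
  have hAB : ∀ z, A z = 0 → B z = 0 := by
    intro z hz0
    obtain ⟨n, q, hq⟩ := IsLocalization.Away.surj c z
    have h3 : α q = 0 := by
      rw [← hA, ← hq, map_mul, hz0, zero_mul]
    have h4 : β q = 0 := hαβ q h3
    have h5 : B z * (β c) ^ n = 0 := by
      have h6 := congrArg B hq
      rw [map_mul, map_pow, hB, hB, h4] at h6
      exact h6
    exact (mul_eq_zero.1 h5).resolve_right (pow_ne_zero _ hβc.ne_zero)
  have hu : ∀ i, IsUnit (algebraMap R (Localization.Away c) (d i)) := by
    intro i
    have h3 : IsUnit (algebraMap R (Localization.Away c) c) :=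
      IsLocalization.Away.algebraMap_isUnit c
    exact isUnit_of_dvd_unit (map_dvd _ (Finset.dvd_prod_of_mem _ (Finset.mem_univ i))) h3
  let xl : ι → Localization.Away c := fun i =>
    algebraMap R (Localization.Away c) (p i) * ↑(hu i).unit⁻¹
  have hxl : ∀ i, xl i * algebraMap R (Localization.Away c) (d i) =
      algebraMap R (Localization.Away c) (p i) := by
    intro i
    simp only [xl]
    rw [mul_assoc, IsUnit.val_inv_mul, mul_one]
  have hAx : ∀ i, A (xl i) = α (p i) / α (d i) := by
    intro i
    have h3 := congrArg A (hxl i)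
    rw [map_mul, hA, hA] at h3
    rw [← h3, mul_div_cancel_right₀ _ (hα i)]
  have hBx : ∀ i, B (xl i) = β (p i) / β (d i) := by
    intro i
    have h3 := congrArg B (hxl i)
    rw [map_mul, hB, hB] at h3
    rw [← h3, mul_div_cancel_right₀ _ (hβ i)]
  have h3 : A (MvPolynomial.eval₂ ((algebraMap R (Localization.Away c)).comp κ) xl f) = 0 := by
    rw [MvPolynomial.hom_eval₂, ← hf]
    congr 1
    · ext s
      exact hA _
    · funext i
      exact hAx i
  have h4 := hAB _ h3
  rw [MvPolynomial.hom_eval₂] at h4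
  rw [← h4, MvPolynomial.eval, MvPolynomial.coe_eval₂Hom]
  congr 1
  · ext s
    exact ((hB _).trans (hβκ s)).symm
  · funext i
    exact (hBx i).symm

/-- The affine form without inequalities. -/
theorem aff_of_plane {F : Type u} [Field F] [PerfectField F] [Infinite F]
    (h : PlanePAC F) (E : Type u) [Field E] [Algebra F E] [Algebra.EssFiniteType F E]
    (halg : ∀ a : E, IsAlgebraic F a → a ∈ (algebraMap F E).range)
    (ι : Type) [Finite ι] (x : ι → E) :
    ∃ y : ι → F, ∀ f : MvPolynomial ι F, MvPolynomial.aeval x f = 0 →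
      MvPolynomial.eval y f = 0 := by
  classical
  have := Fintype.ofFinite ι
  obtain ⟨σ, t, θ, G, hinj, hG, hdvd, ⟨r, u, v, hr, huv⟩, hz⟩ := exists_model F E
  set φ : MvPolynomial σ F →+* E :=
    (MvPolynomial.aeval t : MvPolynomial σ F →ₐ[F] E).toRingHom with hφ
  choose D P hD hP using fun i => hz (x i)
  set D₀ : MvPolynomial σ F := ∏ i, D i with hD₀
  have hD₀0 : D₀ ≠ 0 := Finset.prod_ne_zero_iff.2 fun i _ => hD i
  have hirr := abs_irreducible halg t θ G hG hdvd
  obtain ⟨a, b, hD', hr', hirr'⟩ := bertini G hG hirr hr huv hD₀0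
  obtain ⟨τ, η, h1, h2⟩ := h (G.map (lin a b).toRingHom) (u.map (lin a b).toRingHom)
    (v.map (lin a b).toRingHom) (lin a b r) (lin a b D₀) (hG.map _) hr' (by
      have h3 := congrArg (Polynomial.map (lin a b).toRingHom) huv
      rw [Polynomial.map_add, Polynomial.map_mul, Polynomial.map_mul, map_C,
        ← derivative_map] at h3
      exact h3) hirr' hD'
  set ψ : MvPolynomial σ F →+* F := (evalRingHom τ).comp (lin a b).toRingHom with hψ
  have hGψ : G.eval₂ ψ η = 0 := by
    rw [map_map, ← hψ, eval_map] at h1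
    exact h1
  have hspec : ∀ R : (MvPolynomial σ F)[X], R.eval₂ φ θ = 0 → R.eval₂ ψ η = 0 := by
    intro R hR
    obtain ⟨T, rfl⟩ := (hdvd R).1 hR
    rw [eval₂_mul, hGψ, zero_mul]
  have hψC : ∀ s, ψ (MvPolynomial.C s) = s := by
    intro s
    rw [hψ, RingHom.comp_apply]
    have h6 : (lin a b).toRingHom (MvPolynomial.C s) = C s := by
      change lin a b (MvPolynomial.C s) = C s
      rw [lin, MvPolynomial.aeval_C]
      rfl
    rw [h6]
    simp
  have hφC : ∀ s, φ (MvPolynomial.C s) = algebraMap F E s := by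
    intro s
    change MvPolynomial.aeval t (MvPolynomial.C s) = _
    rw [MvPolynomial.aeval_C]
  have hφD : ∀ i, φ (D i) ≠ 0 := fun i hi => hD i (hinj (by
    change φ (D i) = MvPolynomial.aeval t 0
    rw [hi, map_zero]))
  have hψD₀ : ψ D₀ ≠ 0 := h2
  have hψD : ∀ i, ψ (D i) ≠ 0 := fun i hi => hψD₀ (by
    rw [hD₀, map_prod]
    exact Finset.prod_eq_zero (Finset.mem_univ i) hi)
  refine ⟨fun i => (eval₂RingHom ψ η) (P i) / (eval₂RingHom ψ η) (C (D i)), fun f hf => ?_⟩
  refine spec_quot (eval₂RingHom φ θ) (eval₂RingHom ψ η) hspec (C.comp MvPolynomial.C) ?_ P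
    (fun i => C (D i)) ?_ ?_ f ?_
  · intro s
    have h3 : (eval₂RingHom ψ η) (C (MvPolynomial.C s)) = ψ (MvPolynomial.C s) := eval₂_C _ _
    exact h3.trans (hψC s)
  · intro i
    have h3 : (eval₂RingHom φ θ) (C (D i)) = φ (D i) := eval₂_C _ _
    rw [h3]
    exact hφD i
  · intro i
    have h3 : (eval₂RingHom ψ η) (C (D i)) = ψ (D i) := eval₂_C _ _
    rw [h3]
    exact hψD i
  · rw [← hf, MvPolynomial.aeval_def]
    congr 1
    · ext s
      have h3 : (eval₂RingHom φ θ) (C (MvPolynomial.C s)) = φ (MvPolynomial.C s) := eval₂_C _ _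
      exact h3.trans (hφC s)
    · funext i
      have h3 : (eval₂RingHom φ θ) (C (D i)) = φ (D i) := eval₂_C _ _
      have h4 : (eval₂RingHom φ θ) (P i) = φ (D i) * x i := (hP i).symm
      rw [h3, h4, mul_div_cancel_left₀ _ (hφD i)]

/-- **Affine form with inequalities.** -/
theorem affPAC_of_plane {F : Type u} [Field F] [PerfectField F] [Infinite F]
    (h : PlanePAC F) : AffPAC F := by
  intro E _ _ _ halg ι _ x S hS
  obtain ⟨y, hy⟩ := aff_of_plane h E halg (ι ⊕ ι) (Sum.elim x fun i => (x i)⁻¹)
  refine ⟨fun i => y (Sum.inl i), fun i hi h0 => ?_, fun f hf => ?_⟩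
  · have h1 := hy (MvPolynomial.X (Sum.inl i) * MvPolynomial.X (Sum.inr i) - 1) (by
      simp [hi])
    simp [h0] at h1
  · have h1 := hy (MvPolynomial.rename Sum.inl f) (by
      rw [MvPolynomial.aeval_rename]
      exact hS f hf)
    rw [MvPolynomial.eval_rename] at h1
    exact h1

/-- Either a zero over `F` or an algebraic element outside of `F`. -/
theorem AffPAC.zero_or {F : Type u} [Field F] (h : AffPAC F) (E : Type u) [Field E] [Algebra F E]
    [Algebra.EssFiniteType F E] (ι : Type) [Finite ι] (x : ι → E) (S : Set (MvPolynomial ι F))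
    (hS : ∀ f ∈ S, MvPolynomial.aeval x f = 0) :
    (∃ y : ι → F, (∀ i, x i ≠ 0 → y i ≠ 0) ∧ ∀ f ∈ S, MvPolynomial.eval y f = 0) ∨
      ∃ a : E, IsAlgebraic F a ∧ a ∉ (algebraMap F E).range := by
  by_cases halg : ∀ a : E, IsAlgebraic F a → a ∈ (algebraMap F E).range
  · exact Or.inl (h E halg ι x S hS)
  · push Not at halg
    exact Or.inr halg

end BD

namespace ZC

universe u

/-- The affine form for the union of the extensions of degree prime to `l`. -/
theorem affPAC_of_primeClosed {l : ℕ} (hl : l.Prime) {F : Type u} [Field F] [PerfectField F]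
    [Infinite F] (hF : PrimeClosed l F) : BD.AffPAC F :=
  BD.affPAC_of_plane (planePAC_of_primeClosed hl hF)

end ZC
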